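import Pool.Agent.H37.SP.Stm

set_option autoImplicit false

namespace Pool.Agent.H8.SP

open Finset Pool.Agent.H37.SP

theorem cls_b {A b p : ℕ} (hA : 2 ≤ A) (hAb : A * b = p + 1) (hY : A ^ 10 ≤ 2 * p) : 3 ≤ b := by
  by_contra h
  push Not at h
  have h1 : A * b ≤ A * 2 := Nat.mul_le_mul_left _ (by omega)
  have h2 : 2 ^ 9 ≤ A ^ 9 := Nat.pow_le_pow_left hA 9
  have h3 : A ^ 10 = A ^ 9 * A := by ring
  have h4 : 2 ^ 9 * A ≤ A ^ 9 * A := Nat.mul_le_mul_right _ h2
  omega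

theorem cls_lt {A b p σ : ℕ} (hA : 2 ≤ A) (hAb : A * b = p + 1) (hY : A ^ 10 ≤ 2 * p)
    (hσ : σ < A) : σ + b < p := by
  have hb := cls_b hA hAb hY
  obtain ⟨c, rfl⟩ : ∃ c, b = c + 3 := ⟨b - 3, by omega⟩
  obtain ⟨d, rfl⟩ : ∃ d, A = d + 2 := ⟨A - 2, by omega⟩
  nlinarith

theorem cls_ne {A b A' b' p σ σ' : ℕ} (hA' : 2 ≤ A') (hAb : A * b = p + 1)
    (hAb' : A' * b' = p + 1) (hY : A' ^ 10 ≤ 2 * p) (hσ' : σ' < A')
    (hv : σ + b = σ' + b') (hlt : A < A') : False := by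
  have hbb : b' < b := by
    by_contra h
    push Not at h
    have h1 : A * b ≤ A * b' := Nat.mul_le_mul_left _ h
    have hb' : 0 < b' := by
      rcases Nat.eq_zero_or_pos b' with h0 | h0
      · subst h0; omega
      · exact h0
    have h2 : A * b' < A' * b' := Nat.mul_lt_mul_of_pos_right hlt hb'
    omega
  obtain ⟨d, rfl⟩ : ∃ d, b = b' + d := ⟨b - b', by omega⟩
  have hd : d ≤ σ' := by omega
  obtain ⟨c, rfl⟩ : ∃ c, A' = A + c := ⟨A' - A, by omega⟩
  have hc : 1 ≤ c := by omega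
  -- A * d = c * b'
  have h1 : A * d = c * b' := by nlinarith
  have h2 : p + 1 ≤ (A + c) * (A * d) := by
    rw [h1, ← hAb']
    have : b' ≤ c * b' := Nat.le_mul_of_pos_left _ hc
    exact Nat.mul_le_mul_left _ this
  have h3 : A * d ≤ (A + c) * (A + c) := Nat.mul_le_mul (by omega) (by omega)
  have h4 : (A + c) * (A * d) ≤ (A + c) * ((A + c) * (A + c)) := Nat.mul_le_mul_left _ h3
  have h5 : (A + c) * ((A + c) * (A + c)) = (A + c) ^ 3 := by ring
  have h6 : 2 ^ 7 ≤ (A + c) ^ 7 := Nat.pow_le_pow_left hA' 7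
  have h7 : (A + c) ^ 10 = (A + c) ^ 7 * (A + c) ^ 3 := by ring
  have h8 : 2 ^ 7 * (A + c) ^ 3 ≤ (A + c) ^ 7 * (A + c) ^ 3 := Nat.mul_le_mul_right _ h6
  omega

theorem t_CLS (hINJ : S_INJ) (hBND : S_BND) : S_CLS := by
  intro s t p hs ht hp
  classical
  simp only [PP, mem_filter, mem_Ioc] at hp
  obtain ⟨⟨hp1, hp2⟩, hpp⟩ := hp
  have hY2 : Y s t ≤ 2 * p := by omega
  -- facts on tuples
  have hbox : ∀ a ∈ Tup s t p, a ∈ Box s t ∧ prd a ∣ p + 1 := by
    intro a ha
    simpa [Tup] using ha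
  have hA2 : ∀ a ∈ Tup s t p, 2 ≤ prd a := by
    intro a ha
    have h1 : ∀ i : Fin s, T t i ≤ a i ∧ a i ≤ T t i ^ 2 := by
      have := (hbox a ha).1
      simpa [Box, Fintype.mem_piFinset] using this
    have h2 : ∀ i, 1 ≤ a i := fun i => le_trans (Nat.one_le_pow _ _ (by omega)) (h1 i).1
    have h3 : a ⟨0, hs⟩ ∣ prd a := Finset.dvd_prod_of_mem _ (mem_univ _)
    have h4 : 0 < prd a := Finset.prod_pos fun i _ => h2 i
    have h5 := Nat.le_of_dvd h4 h3
    have h6 := (h1 ⟨0, hs⟩).1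
    simp only [T, pow_zero, pow_one] at h6
    omega
  have hAb : ∀ a ∈ Tup s t p, prd a * ((p + 1) / prd a) = p + 1 := fun a ha =>
    Nat.mul_div_cancel' (hbox a ha).2
  have hYa : ∀ a ∈ Tup s t p, prd a ^ 10 ≤ 2 * p := fun a ha =>
    le_trans (hBND s t ht a (hbox a ha).1).1 hY2
  have hσ : ∀ a ∈ Tup s t p, sg a < prd a := fun a ha => (hBND s t ht a (hbox a ha).1).2
  have hval : ∀ a ∈ Tup s t p, sg a + (p + 1) / prd a < p := fun a ha =>
    cls_lt (hA2 a ha) (hAb a ha) (hYa a ha) (hσ a ha)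
  have hval0 : ∀ a ∈ Tup s t p, 0 < (p + 1) / prd a := fun a ha => by
    have := cls_b (hA2 a ha) (hAb a ha) (hYa a ha)
    omega
  symm
  refine Finset.card_bij (fun a _ => p - (sg a + (p + 1) / prd a)) ?_ ?_ ?_
  · intro a ha
    have h1 := hval a ha
    have h2 := hval0 a ha
    simp only [Res, mem_filter, mem_range]
    refine ⟨by omega, a, ha, ?_⟩
    have : p - (sg a + (p + 1) / prd a) + sg a + (p + 1) / prd a = p := by omega
    rw [this]
  · intro a ha b hb hab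
    have h1 := hval a ha
    have h2 := hval b hb
    have hv : sg a + (p + 1) / prd a = sg b + (p + 1) / prd b := by omega
    have hprd : prd a = prd b := by
      rcases lt_trichotomy (prd a) (prd b) with h | h | h
      · exact (cls_ne (hA2 b hb) (hAb a ha) (hAb b hb) (hYa b hb) (hσ b hb) hv h).elim
      · exact h
      · exact (cls_ne (hA2 a ha) (hAb b hb) (hAb a ha) (hYa a ha) (hσ a ha) hv.symm h).elim
    rw [hprd] at hv
    exact hINJ s t ht a b (hbox a ha).1 (hbox b hb).1 hprd (by omega)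
  · intro r hr
    simp only [Res, mem_filter, mem_range] at hr
    obtain ⟨hr1, a, ha, hdvd⟩ := hr
    refine ⟨a, ha, ?_⟩
    have h1 := hval a ha
    have h2 := hval0 a ha
    obtain ⟨c, hc⟩ := hdvd
    have hc1 : c = 1 := by
      have h3 : 0 < p * c := by omega
      have h4 : p * c < p * 2 := by omega
      have h5 : c < 2 := Nat.lt_of_mul_lt_mul_left h4
      have h6 : 0 < c := Nat.pos_of_mul_pos_left h3 |> fun h => by
        rcases Nat.eq_zero_or_pos c with h0 | h0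
        · subst h0; omega
        · exact h0
      omega
    subst hc1
    show p - (sg a + (p + 1) / prd a) = r
    omega

end Pool.Agent.H8.SP
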