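import Pool.Agent.H37.SP.Stm

set_option autoImplicit false

namespace Pool.Agent.H8.SP

open Finset Pool.Agent.H37.SP

theorem mem_box {s t : ℕ} {a : Fin s → ℕ} :
    a ∈ Box s t ↔ ∀ i : Fin s, T t i ≤ a i ∧ a i ≤ T t i ^ 2 := by
  simp [Box, Fintype.mem_piFinset]

theorem T_pos {t : ℕ} (ht : 2 ≤ t) (i : ℕ) : 1 ≤ T t i := Nat.one_le_pow _ _ (by omega)

theorem prd_pos {s t : ℕ} (ht : 2 ≤ t) {a : Fin s → ℕ} (ha : a ∈ Box s t) : 1 ≤ prd a := by
  rw [mem_box] at ha
  exact Finset.prod_pos fun (i : Fin s) _ => lt_of_lt_of_le (T_pos ht (i : ℕ)) (ha i).1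

theorem sg_lt {s : ℕ} (a : Fin s → ℕ) (ha : ∀ i, 1 ≤ a i) : sg a < prd a := by
  induction s with
  | zero => simp [sg, prd]
  | succ s ih =>
    have h1 := ih (fun i => a i.castSucc) fun i => ha _
    have h2 : sg a = sg (fun i => a i.castSucc) + (a (Fin.last s) - 1) := by
      simp [sg, Fin.sum_univ_castSucc]
    have h3 : prd a = prd (fun i => a i.castSucc) * a (Fin.last s) := by
      simp [prd, Fin.prod_univ_castSucc]
    rw [h2, h3]
    obtain ⟨c, hc⟩ : ∃ c, a (Fin.last s) = c + 1 := ⟨a (Fin.last s) - 1, by have := ha (Fin.last s); omega⟩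
    rw [hc]
    have h4 : 1 ≤ prd (fun i => a i.castSucc) := by omega
    have h5 : c ≤ prd (fun i => a i.castSucc) * c := Nat.le_mul_of_pos_left _ h4
    have h6 : prd (fun i => a i.castSucc) * (c + 1) = prd (fun i => a i.castSucc) * c + prd (fun i => a i.castSucc) := by ring
    rw [h6]
    simp only [Nat.add_sub_cancel]
    omega

theorem prd_sq {s t : ℕ} {a : Fin s → ℕ} (ha : a ∈ Box s t) : prd a ^ 2 * t ≤ T t s := by
  induction s with
  | zero => simp [prd, T]
  | succ s ih =>
    rw [mem_box] at ha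
    have h1 := ih (a := fun i => a i.castSucc) (by rw [mem_box]; intro i; exact ha i.castSucc)
    have h3 : prd a = prd (fun i => a i.castSucc) * a (Fin.last s) := by
      simp [prd, Fin.prod_univ_castSucc]
    have h4 := (ha (Fin.last s)).2
    simp only [Fin.val_last] at h4
    have h5 : T t (s + 1) = T t s * (T t s ^ 2) ^ 2 := by
      simp only [T]
      rw [← pow_mul, ← pow_mul, ← pow_add]
      congr 1
      ring
    rw [h3, h5]
    calc (prd (fun i => a i.castSucc) * a (Fin.last s)) ^ 2 * t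
        = (prd (fun i => a i.castSucc) ^ 2 * t) * a (Fin.last s) ^ 2 := by ring
      _ ≤ T t s * (T t s ^ 2) ^ 2 := Nat.mul_le_mul h1 (Nat.pow_le_pow_left h4 2)

theorem inj_aux {B B' x x' S S' T t : ℕ} (ht : 2 ≤ t) (hB : 1 ≤ B) (hx' : T ≤ x')
    (hB' : B' ^ 2 * t ≤ T) (hS : S' < B') (hlt : B < B') (hp : B * x = B' * x')
    (hs : S + (x - 1) = S' + (x' - 1)) (hT : 1 ≤ T) : False := by
  have hxx : x' < x := by
    by_contra h
    push Not at h
    have : B * x ≤ B * x' := Nat.mul_le_mul_left _ h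
    have h2 : B * x' < B' * x' := Nat.mul_lt_mul_of_pos_right hlt (by omega)
    omega
  obtain ⟨d, rfl⟩ : ∃ d, x = x' + d := ⟨x - x', by omega⟩
  have hd : d ≤ S' := by omega
  have h1 : B * d = (B' - B) * x' := by
    obtain ⟨c, rfl⟩ : ∃ c, B' = B + c := ⟨B' - B, by omega⟩
    have : B * (x' + d) = (B + c) * x' := hp
    rw [Nat.add_sub_cancel_left]
    nlinarith
  have h2 : x' ≤ B * d := by
    rw [h1]
    exact Nat.le_mul_of_pos_left _ (by omega)
  have h3 : B * d ≤ B' * B' := Nat.mul_le_mul (by omega) (by omega)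
  have h4 : B' * B' * 2 ≤ B' ^ 2 * t := by
    rw [sq]
    exact Nat.mul_le_mul_left _ ht
  have h5 : 1 ≤ B' * B' := Nat.mul_pos (by omega) (by omega)
  omega

theorem t_INJ : S_INJ := by
  intro s t ht
  induction s with
  | zero =>
    intro a b _ _ _ _
    exact Subsingleton.elim _ _
  | succ s ih =>
    intro a b ha hb hp hs
    have ha' : (fun i : Fin s => a i.castSucc) ∈ Box s t := by
      rw [mem_box] at ha ⊢; intro i; exact ha i.castSucc
    have hb' : (fun i : Fin s => b i.castSucc) ∈ Box s t := by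
      rw [mem_box] at hb ⊢; intro i; exact hb i.castSucc
    have hA1 : ∀ i : Fin s, 1 ≤ a i.castSucc := fun i => le_trans (T_pos ht _) (mem_box.1 ha i.castSucc).1
    have hB1 : ∀ i : Fin s, 1 ≤ b i.castSucc := fun i => le_trans (T_pos ht _) (mem_box.1 hb i.castSucc).1
    have hax := (mem_box.1 ha (Fin.last s)).1
    have hbx := (mem_box.1 hb (Fin.last s)).1
    simp only [Fin.val_last] at hax hbx
    have hpa : prd a = prd (fun i => a i.castSucc) * a (Fin.last s) := by
      simp [prd, Fin.prod_univ_castSucc]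
    have hpb : prd b = prd (fun i => b i.castSucc) * b (Fin.last s) := by
      simp [prd, Fin.prod_univ_castSucc]
    have hsa : sg a = sg (fun i => a i.castSucc) + (a (Fin.last s) - 1) := by
      simp [sg, Fin.sum_univ_castSucc]
    have hsb : sg b = sg (fun i => b i.castSucc) + (b (Fin.last s) - 1) := by
      simp [sg, Fin.sum_univ_castSucc]
    rw [hpa, hpb] at hp
    rw [hsa, hsb] at hs
    have hT := T_pos ht s
    rcases lt_trichotomy (prd fun i => a i.castSucc) (prd fun i => b i.castSucc) with h | h | h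
    · exact (inj_aux ht (prd_pos ht ha') hbx (prd_sq hb') (sg_lt _ hB1) h hp hs hT).elim
    · rw [h] at hp
      have hx : a (Fin.last s) = b (Fin.last s) :=
        Nat.eq_of_mul_eq_mul_left (prd_pos ht hb') hp
      have hss : sg (fun i => a i.castSucc) = sg fun i => b i.castSucc := by omega
      have := ih _ _ ha' hb' h hss
      funext i
      refine Fin.lastCases hx (fun j => ?_) i
      exact congrFun this j
    · exact (inj_aux ht (prd_pos ht hb') hax (prd_sq ha') (sg_lt _ hA1) h hp.symm hs.symm hT).elim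

end Pool.Agent.H8.SP
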