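import Pool.Agent.H37.SP.Stm

set_option autoImplicit false

namespace Pool.Agent.H8.SP

open Finset Pool.Agent.H37.SP

/-- the modulus of a pair -/
def qq (x : ℕ × ℕ) : ℕ := if x.1 = x.2 then x.1 else x.1 * x.2

theorem mod_qq_fst (x : ℕ × ℕ) (k : ℕ) : k % qq x % x.1 = k % x.1 := by
  unfold qq
  split_ifs with h
  · exact Nat.mod_mod _ _
  · exact Nat.mod_mul_right_mod _ _ _

theorem mod_qq_snd (x : ℕ × ℕ) (k : ℕ) : k % qq x % x.2 = k % x.2 := by
  unfold qq
  split_ifs with h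
  · rw [h]; exact Nat.mod_mod _ _
  · exact Nat.mod_mul_left_mod _ _ _

theorem t_MOM (hPER : S_PER) (hCRT : S_CRT) (hPRA : S_PRA) : S_MOM := by
  intro r y X Bk hdisj hpr R hR L hL hμ
  classical
  obtain ⟨g, hg⟩ : ∃ g : ℕ → ℕ → ℝ, ∀ v k, g v k = (if k % v ∈ R v then 1 else 0) -
    ((R v).card : ℝ) / v := ⟨_, fun _ _ => rfl⟩
  obtain ⟨z, hz⟩ : ∃ z : ℕ → ℝ, ∀ v, z v = ((R v).card : ℝ) / v := ⟨_, fun _ => rfl⟩
  have hz0 : ∀ v, 0 ≤ z v := fun v => by rw [hz]; positivity
  have hz1 : ∀ i, ∀ p ∈ Bk i, z p ≤ 1 := by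
    intro i p hp
    have h1 := card_le_card (hR i p hp)
    rw [card_range] at h1
    have hp0 : (0 : ℝ) < p := by exact_mod_cast (hpr i p hp).1.pos
    rw [hz, div_le_one hp0]
    exact_mod_cast h1
  have hgabs : ∀ i, ∀ p ∈ Bk i, ∀ k, |g p k| ≤ 1 := by
    intro i p hp k
    have h0 := hz0 p
    have h1 := hz1 i p hp
    rw [hg, ← hz, abs_le]
    split_ifs <;> constructor <;> linarith
  have hgper : ∀ v q k, k % q % v = k % v → g v (k % q) = g v k := by
    intro v q k h
    rw [hg, hg, h]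
  set μ : Fin r → ℝ := fun i => ∑ p ∈ Bk i, z p with hμdef
  have hμL : ∀ i, L ≤ μ i := by
    intro i
    have := hμ i
    simp only [hμdef, hz]
    exact this
  have hμ0 : ∀ i, 0 < μ i := fun i => lt_of_lt_of_le (by linarith) (hμL i)
  -- the sum
  set E := Fintype.piFinset (fun i : Fin r => Bk i ×ˢ Bk i) with hE
  set G : (Fin r → ℕ × ℕ) → ℕ → ℝ := fun e k => ∏ i, (g (e i).1 k * g (e i).2 k) with hG
  have hexp : ∀ k, ∏ i, (∑ p ∈ Bk i, g p k) ^ 2 = ∑ e ∈ E, G e k := by
    intro k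
    rw [hE, hG]
    simp only
    rw [← Finset.prod_univ_sum (t := fun i : Fin r => Bk i ×ˢ Bk i)
      (f := fun i x => g x.1 k * g x.2 k)]
    refine Finset.prod_congr rfl fun i _ => ?_
    rw [sq, Finset.sum_mul_sum, ← Finset.sum_product']
  have hmemE : ∀ e ∈ E, ∀ i, (e i).1 ∈ Bk i ∧ (e i).2 ∈ Bk i := by
    intro e he i
    rw [hE, Fintype.mem_piFinset] at he
    exact Finset.mem_product.1 (he i)
  have hq0 : ∀ e ∈ E, ∀ i, 0 < qq (e i) := by
    intro e he i
    obtain ⟨h1, h2⟩ := hmemE e he i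
    unfold qq
    split_ifs
    · exact (hpr i _ h1).1.pos
    · exact Nat.mul_pos (hpr i _ h1).1.pos (hpr i _ h2).1.pos
  have hqy : ∀ e ∈ E, ∀ i, qq (e i) ≤ y ^ 2 := by
    intro e he i
    obtain ⟨h1, h2⟩ := hmemE e he i
    have a1 := (hpr i _ h1).2
    have a2 := (hpr i _ h2).2
    have a3 := (hpr i _ h1).1.pos
    unfold qq
    split_ifs
    · calc (e i).1 ≤ y := a1
        _ ≤ y * y := Nat.le_mul_of_pos_left _ (by omega)
        _ = y ^ 2 := by ring
    · calc (e i).1 * (e i).2 ≤ y * y := Nat.mul_le_mul a1 a2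
        _ = y ^ 2 := by ring
  set m : ℕ × ℕ → ℝ := fun x => (∑ k ∈ range (qq x), g x.1 k * g x.2 k) / qq x with hm
  have hone : ∀ e ∈ E, ∑ k ∈ range X, G e k ≤ X * ∏ i, m (e i) + 2 * (y : ℝ) ^ (2 * r) := by
    intro e he
    have hQ : 0 < ∏ i, qq (e i) := Finset.prod_pos fun i _ => hq0 e he i
    have hdvd : ∀ i, qq (e i) ∣ ∏ i, qq (e i) := fun i => Finset.dvd_prod_of_mem _ (mem_univ i)
    have habs : ∀ k, |G e k| ≤ 1 := by
      intro k
      simp only [hG]
      rw [Finset.abs_prod]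
      refine Finset.prod_le_one (fun i _ => abs_nonneg _) fun i _ => ?_
      rw [abs_mul]
      obtain ⟨h1, h2⟩ := hmemE e he i
      have b1 := hgabs i _ h1 k
      have b2 := hgabs i _ h2 k
      have b3 := abs_nonneg (g (e i).1 k)
      have b4 := abs_nonneg (g (e i).2 k)
      nlinarith
    have hfac : ∀ i : Fin r, ∀ Q k, qq (e i) ∣ Q →
        g (e i).1 (k % Q) * g (e i).2 (k % Q) = g (e i).1 k * g (e i).2 k := by
      intro i Q k hQd
      have c1 : (e i).1 ∣ qq (e i) := by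
        unfold qq; split_ifs
        · exact dvd_rfl
        · exact Dvd.intro _ rfl
      have c2 : (e i).2 ∣ qq (e i) := by
        unfold qq; split_ifs with h
        · rw [h]
        · exact Dvd.intro_left _ rfl
      rw [hgper _ _ _ (Nat.mod_mod_of_dvd _ (c1.trans hQd)),
        hgper _ _ _ (Nat.mod_mod_of_dvd _ (c2.trans hQd))]
    have hper : ∀ k, G e (k % ∏ i, qq (e i)) = G e k := by
      intro k
      simp only [hG]
      exact Finset.prod_congr rfl fun i _ => hfac i _ k (hdvd i)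
    have hcop : ∀ i j, i ≠ j → (qq (e i)).Coprime (qq (e j)) := by
      intro i j hij
      obtain ⟨h1, h2⟩ := hmemE e he i
      obtain ⟨h3, h4⟩ := hmemE e he j
      have hd := hdisj i j hij
      have hc : ∀ a ∈ Bk i, ∀ b ∈ Bk j, a.Coprime b := by
        intro a ha b hb
        rw [Nat.coprime_primes (hpr i a ha).1 (hpr j b hb).1]
        rintro rfl
        exact (Finset.disjoint_left.1 hd ha) hb
      unfold qq
      split_ifs
      · exact hc _ h1 _ h3
      · exact Nat.Coprime.mul_right (hc _ h1 _ h3) (hc _ h1 _ h4)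
      · exact Nat.Coprime.mul_left (hc _ h1 _ h3) (hc _ h2 _ h3)
      · exact Nat.Coprime.mul_left (Nat.Coprime.mul_right (hc _ h1 _ h3) (hc _ h1 _ h4))
          (Nat.Coprime.mul_right (hc _ h2 _ h3) (hc _ h2 _ h4))
    have h1 := hPER (∏ i, qq (e i)) X hQ (G e) habs hper
    have h2 := hCRT r (fun i => qq (e i)) (fun i => hq0 e he i) hcop
      (fun i k => g (e i).1 k * g (e i).2 k) (fun i k => hfac i _ k dvd_rfl)
    have h3 : (∑ k ∈ range (∏ i, qq (e i)), G e k) / ((∏ i, qq (e i) : ℕ) : ℝ) = ∏ i, m (e i) := by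
      simp only [hG, hm]
      rw [h2, Finset.prod_div_distrib]
      push_cast
      rfl
    rw [h3] at h1
    have h4 := (abs_le.1 h1).2
    have h5 : ((∏ i, qq (e i) : ℕ) : ℝ) ≤ (y : ℝ) ^ (2 * r) := by
      have : ∏ i, qq (e i) ≤ ∏ _i : Fin r, y ^ 2 := Finset.prod_le_prod' fun i _ => hqy e he i
      rw [Finset.prod_const, Finset.card_univ, Fintype.card_fin, ← pow_mul] at this
      exact_mod_cast this
    linarith
  have hcardE : (E.card : ℝ) ≤ (y : ℝ) ^ (2 * r) := by
    rw [hE, Fintype.card_piFinset]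
    have hb : ∀ i, (Bk i).card ≤ y := by
      intro i
      have : Bk i ⊆ Finset.Icc 1 y := fun p hp =>
        Finset.mem_Icc.2 ⟨(hpr i p hp).1.pos, (hpr i p hp).2⟩
      have := card_le_card this
      simpa using this
    have : ∏ i, (Bk i ×ˢ Bk i).card ≤ ∏ _i : Fin r, y ^ 2 := by
      refine Finset.prod_le_prod' fun i _ => ?_
      rw [Finset.card_product, sq]
      exact Nat.mul_le_mul (hb i) (hb i)
    rw [Finset.prod_const, Finset.card_univ, Fintype.card_fin, ← pow_mul] at this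
    exact_mod_cast this
  have hmain : ∑ e ∈ E, ∏ i, m (e i) ≤ ∏ i, μ i := by
    rw [hE, ← Finset.prod_univ_sum (t := fun i : Fin r => Bk i ×ˢ Bk i) (f := fun _ x => m x)]
    have key : ∀ i, ∑ x ∈ Bk i ×ˢ Bk i, m x = ∑ p ∈ Bk i, z p * (1 - z p) := by
      intro i
      rw [Finset.sum_product]
      refine Finset.sum_congr rfl fun p hp => ?_
      rw [Finset.sum_eq_single_of_mem p hp]
      · have := (hPRA p p (hpr i p hp).1 (hpr i p hp).1 R (hR i p hp) (hR i p hp) g hg).2
        simp only [hm, qq, if_true]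
        rw [this, hz]
        have hp0 : (p : ℝ) ≠ 0 := by exact_mod_cast (hpr i p hp).1.ne_zero
        field_simp
      · intro p' hp' hne
        have := (hPRA p p' (hpr i p hp).1 (hpr i p' hp').1 R (hR i p hp) (hR i p' hp') g hg).1
          (Ne.symm hne)
        simp only [hm, qq]
        rw [if_neg (Ne.symm hne), this, zero_div]
    refine Finset.prod_le_prod (fun i _ => ?_) fun i _ => ?_
    · rw [key]
      exact Finset.sum_nonneg fun p hp => mul_nonneg (hz0 p) (by have := hz1 i p hp; linarith)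
    · rw [key]
      refine Finset.sum_le_sum fun p hp => ?_
      have := hz0 p
      nlinarith
  set F := (range X).filter (fun k => ∀ i, ∀ p ∈ Bk i, k % p ∉ R p) with hF
  have hlow : (F.card : ℝ) * ∏ i, μ i ^ 2 ≤ ∑ k ∈ range X, ∏ i, (∑ p ∈ Bk i, g p k) ^ 2 := by
    calc (F.card : ℝ) * ∏ i, μ i ^ 2 = ∑ k ∈ F, ∏ i, (∑ p ∈ Bk i, g p k) ^ 2 := by
          rw [← nsmul_eq_mul, ← Finset.sum_const]
          refine Finset.sum_congr rfl fun k hk => ?_
          rw [hF, mem_filter] at hk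
          refine Finset.prod_congr rfl fun i _ => ?_
          have : ∑ p ∈ Bk i, g p k = - μ i := by
            simp only [hμdef]
            rw [← Finset.sum_neg_distrib]
            refine Finset.sum_congr rfl fun p hp => ?_
            rw [hg, if_neg (hk.2 i p hp), hz]
            ring
          rw [this]
          ring
      _ ≤ _ := Finset.sum_le_sum_of_subset_of_nonneg (Finset.filter_subset _ _)
          fun k _ _ => Finset.prod_nonneg fun i _ => sq_nonneg _
  have hup : ∑ k ∈ range X, ∏ i, (∑ p ∈ Bk i, g p k) ^ 2 ≤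
      X * ∏ i, μ i + 2 * (y : ℝ) ^ (4 * r) := by
    rw [Finset.sum_congr rfl fun k _ => hexp k, Finset.sum_comm]
    calc ∑ e ∈ E, ∑ k ∈ range X, G e k
        ≤ ∑ e ∈ E, (X * ∏ i, m (e i) + 2 * (y : ℝ) ^ (2 * r)) := Finset.sum_le_sum hone
      _ = X * ∑ e ∈ E, ∏ i, m (e i) + E.card * (2 * (y : ℝ) ^ (2 * r)) := by
          rw [Finset.sum_add_distrib, Finset.mul_sum, Finset.sum_const, nsmul_eq_mul]
      _ ≤ X * ∏ i, μ i + (y : ℝ) ^ (2 * r) * (2 * (y : ℝ) ^ (2 * r)) := by
          refine add_le_add (mul_le_mul_of_nonneg_left hmain (by positivity))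
            (mul_le_mul_of_nonneg_right hcardE (by positivity))
      _ = X * ∏ i, μ i + 2 * (y : ℝ) ^ (4 * r) := by
          congr 1
          have : (y : ℝ) ^ (4 * r) = (y : ℝ) ^ (2 * r) * (y : ℝ) ^ (2 * r) := by
            rw [← pow_add]; congr 1; ring
          rw [this]; ring
  have hP : L ^ r ≤ ∏ i, μ i := by
    calc L ^ r = ∏ _i : Fin r, L := by simp
      _ ≤ ∏ i, μ i := Finset.prod_le_prod (fun _ _ => by linarith) fun i _ => hμL i
  have hLr : 1 ≤ L ^ r := one_le_pow₀ hL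
  have hPpos : 0 < ∏ i, μ i := by linarith
  have htot := hlow.trans hup
  rw [Finset.prod_pow] at htot
  set P := ∏ i, μ i with hPdef
  have hX0 : (0 : ℝ) ≤ X := by positivity
  have hy0 : (0 : ℝ) ≤ 2 * (y : ℝ) ^ (4 * r) := by positivity
  have h1 : (F.card : ℝ) ≤ X / P + 2 * (y : ℝ) ^ (4 * r) := by
    have h2 : (F.card : ℝ) * P ^ 2 ≤ (X / P + 2 * (y : ℝ) ^ (4 * r)) * P ^ 2 := by
      have h3 : (X / P + 2 * (y : ℝ) ^ (4 * r)) * P ^ 2 = X * P + 2 * (y : ℝ) ^ (4 * r) * P ^ 2 := by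
        field_simp
      rw [h3]
      have h4 : 1 ≤ P ^ 2 := one_le_pow₀ (by linarith)
      nlinarith
    exact le_of_mul_le_mul_right h2 (by positivity)
  have h5 : (X : ℝ) / P ≤ X / L ^ r := div_le_div_of_nonneg_left hX0 (by linarith) hP
  linarith

end Pool.Agent.H8.SP
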